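import Mathlib

set_option autoImplicit false

open Set Topology MeasureTheory

namespace Pool.Agent.Helper936.Split

/-- the base group `(Z/5)^ω` -/
abbrev G : Type := ℕ → Fin 5

/-- the type of a level: perfect squares are special -/
def w (n : ℕ) : Bool := decide (IsSquare n)

/-- two relations on `Z/5`: a tournament and a pentagon -/
def rho (t : Bool) (a : Fin 5) : Bool :=
  if t then decide (a = 1 ∨ a = 4) else decide (a = 1 ∨ a = 2)

/-- the relation on the base space -/
noncomputable def R (x y : G) : Bool :=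
  rho (w (PiNat.firstDiff x y)) (y (PiNat.firstDiff x y) - x (PiNat.firstDiff x y))

lemma firstDiff_eq {x y : G} {n : ℕ} (h : ∀ i < n, x i = y i) (hn : x n ≠ y n) :
    PiNat.firstDiff x y = n := by
  have hne : x ≠ y := fun h => hn (congrFun h n)
  have h1 := PiNat.apply_firstDiff_ne hne
  rcases lt_trichotomy (PiNat.firstDiff x y) n with hlt | heq | hgt
  · exact absurd (h _ hlt) h1
  · exact heq
  · exact absurd (PiNat.apply_eq_of_lt_firstDiff hgt) hn

lemma R_eq {x y : G} {n : ℕ} (h : ∀ i < n, x i = y i) (hn : x n ≠ y n) :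
    R x y = rho (w n) (y n - x n) := by
  rw [R, firstDiff_eq h hn]

lemma exists_diff {x y : G} (h : x ≠ y) : ∃ n, (∀ i < n, x i = y i) ∧ x n ≠ y n :=
  ⟨PiNat.firstDiff x y, fun _ hi => PiNat.apply_eq_of_lt_firstDiff hi,
    PiNat.apply_firstDiff_ne h⟩

lemma w_shift {a b : ℕ} (h : ∀ j, w (a + j) = w (b + j)) : a = b := by
  have key : ∀ a c : ℕ, 0 < c → (∀ j, w (a + j) = w (a + c + j)) → False := by
    intro a c hc h
    let k := a + c
    have hk : a ≤ k * k := by
      have h1 : 1 ≤ k := by omega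
      calc a ≤ k := by omega
        _ = k * 1 := (Nat.mul_one k).symm
        _ ≤ k * k := Nat.mul_le_mul_left k h1
    have h1 := h (k * k - a)
    have e1 : a + (k * k - a) = k * k := by omega
    have e2 : a + c + (k * k - a) = k * k + c := by omega
    rw [e1, e2] at h1
    have h2 : w (k * k) = true := by
      simp only [w, decide_eq_true_eq]
      exact ⟨k, rfl⟩
    have h3 : w (k * k + c) = false := by
      simp only [w, decide_eq_false_iff_not]
      rintro ⟨r, hr⟩
      have hlt : k < r := by nlinarith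
      have : (k + 1) * (k + 1) ≤ r * r := Nat.mul_le_mul hlt hlt
      have hck : c ≤ k := by omega
      nlinarith
    rw [h2, h3] at h1
    exact absurd h1 (by decide)
  rcases lt_trichotomy a b with hlt | heq | hgt
  · exfalso
    apply key a (b - a) (by omega)
    intro j
    rw [h j]
    congr 1
    omega
  · exact heq
  · exfalso
    apply key b (a - b) (by omega)
    intro j
    rw [← h j]
    congr 1
    omega

/-! finite facts about the two relations -/

lemma module_fact : ∀ t : Bool, ∀ S : Finset (Fin 5),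
    (∀ a ∈ S, ∀ a' ∈ S, ∀ c, c ∉ S → rho t (c - a) = rho t (c - a')) →
    S.card ≤ 1 ∨ S = Finset.univ := by decide +kernel

lemma type_fact : ∀ t t' s : Bool, ∀ d d' : Fin 5, d ≠ 0 → d' ≠ 0 →
    rho t' d' = xor (rho t d) s → rho t' (-d') = xor (rho t (-d)) s → t = t' := by decide +kernel

lemma nonconst_fact : ∀ t : Bool, ∀ e : Fin 5, ∃ d d' : Fin 5, d ≠ e ∧ d' ≠ e ∧
    rho t (e - d) ≠ rho t (e - d') := by decide +kernel

lemma twin_fact : ∀ t : Bool, ∀ e e' : Fin 5, e ≠ e' → ∃ d : Fin 5, d ≠ e ∧ d ≠ e' ∧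
    rho t (e - d) ≠ rho t (e' - d) := by decide +kernel

lemma psi_fact (t t' s : Bool) (ψ : Fin 5 → Fin 5) (hne : ∃ a c, ψ a ≠ ψ c)
    (h : ∀ a c, ψ a ≠ ψ c → rho t' (ψ c - ψ a) = xor (rho t (c - a)) s) :
    Function.Injective ψ ∧ t = t' := by
  classical
  constructor
  · intro a a' haa
    let S : Finset (Fin 5) := Finset.univ.filter (fun c => ψ c = ψ a)
    have hS : ∀ c, c ∈ S ↔ ψ c = ψ a := by intro c; simp [S]
    have hmod : ∀ b ∈ S, ∀ b' ∈ S, ∀ c, c ∉ S → rho t (c - b) = rho t (c - b') := by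
      intro b hb b' hb' c hc
      rw [hS] at hb hb' hc
      have h1 := h b c (fun hh => hc (hh ▸ hb))
      have h2 := h b' c (fun hh => hc (hh ▸ hb'))
      rw [hb] at h1
      rw [hb'] at h2
      rw [h1] at h2
      exact Bool.xor_right_inj.1 (by rw [Bool.xor_comm s, Bool.xor_comm s]; exact h2)
    rcases module_fact t S hmod with h1 | h1
    · exact Finset.card_le_one.1 h1 a ((hS a).2 rfl) a' ((hS a').2 haa.symm)
    · exfalso
      obtain ⟨b, c, hbc⟩ := hne
      apply hbc
      have hb : b ∈ S := by rw [h1]; exact Finset.mem_univ _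
      have hc : c ∈ S := by rw [h1]; exact Finset.mem_univ _
      rw [(hS b).1 hb, (hS c).1 hc]
  · obtain ⟨a, c, hac⟩ := hne
    have h1 := h a c hac
    have h2 := h c a (Ne.symm hac)
    have hac' : c - a ≠ 0 := by
      intro hh
      apply hac
      rw [sub_eq_zero.1 hh]
    have hac'' : ψ c - ψ a ≠ 0 := fun hh => hac (sub_eq_zero.1 hh).symm
    refine type_fact t t' s (c - a) (ψ c - ψ a) hac' hac'' h1 ?_
    rw [neg_sub, neg_sub]
    exact h2

/-! the split space -/

/-- every point `y` of the base is replaced by two points; a function `c : G → Bool` records,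
for every `x`, on which side of `x` the point lies. -/
abbrev X : Type := {p : G × (G → Bool) // ∀ x, x ≠ p.1 → p.2 x = R x p.1}

/-- projection to the base -/
def pr (p : X) : G := p.1.1

/-- the side of `x` on which `p` lies -/
def e (x : G) (p : X) : Bool := p.1.2 x

lemma continuous_pr : Continuous pr := continuous_fst.comp continuous_subtype_val

lemma continuous_e (x : G) : Continuous (e x) :=
  (continuous_apply x).comp (continuous_snd.comp continuous_subtype_val)

open Classical in
/-- the two points over `x` -/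
noncomputable def pt (x : G) (i : Bool) : X :=
  ⟨(x, fun z => if z = x then i else R z x), fun z hz => by simp [hz]⟩

@[simp] lemma pr_pt (x : G) (i : Bool) : pr (pt x i) = x := rfl

@[simp] lemma e_pt_self (x : G) (i : Bool) : e x (pt x i) = i := by simp [e, pt]

lemma e_of_ne {x : G} {p : X} (h : x ≠ pr p) : e x p = R x (pr p) := p.2 x h

lemma ext_X {p q : X} (h : pr p = pr q) (h' : e (pr p) p = e (pr p) q) : p = q := by
  apply Subtype.ext
  apply Prod.ext
  · exact h
  · funext z
    by_cases hz : z = pr p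
    · rw [hz]; exact h'
    · have h1 : p.1.2 z = R z (pr p) := p.2 z hz
      have h2 : q.1.2 z = R z (pr q) := q.2 z (fun hh => hz (hh.trans h.symm))
      rw [h1, h2, h]

lemma pt_pr (p : X) : pt (pr p) (e (pr p) p) = p := by
  apply ext_X
  · rfl
  · simp

lemma isOpen_cyl (x : G) (n : ℕ) : IsOpen {y : G | ∀ i < n, y i = x i} := by
  have : {y : G | ∀ i < n, y i = x i} = ⋂ i ∈ Finset.range n, {y : G | y i = x i} := by
    ext y; simp
  rw [this]
  apply isOpen_biInter_finset
  intro i _
  have hc : Continuous (fun y : G => y i) := continuous_apply i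
  exact (isOpen_discrete ({x i} : Set (Fin 5))).preimage hc

lemma isClosed_cyl (x : G) (n : ℕ) : IsClosed {y : G | ∀ i < n, y i = x i} := by
  simp only [ofPred_forall]
  refine isClosed_iInter fun i => isClosed_iInter fun _ => ?_
  exact isClosed_eq (continuous_apply i) continuous_const

lemma exists_cyl {O : Set G} (hO : IsOpen O) {x : G} (hx : x ∈ O) :
    ∃ n, ∀ y : G, (∀ i < n, y i = x i) → y ∈ O := by
  have h1 : O ∈ 𝓝 x := hO.mem_nhds hx
  rw [nhds_pi, Filter.mem_pi] at h1
  obtain ⟨I, hI, t, ht, hsub⟩ := h1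
  obtain ⟨n, hn⟩ := hI.bddAbove
  refine ⟨n + 1, fun y hy => hsub ?_⟩
  intro i hi
  rw [hy i (Nat.lt_succ_of_le (hn hi))]
  exact mem_of_mem_nhds (ht i)

lemma isClosed_X : IsClosed {p : G × (G → Bool) | ∀ x, x ≠ p.1 → p.2 x = R x p.1} := by
  simp only [ofPred_forall]
  refine isClosed_iInter fun x => ?_
  rw [← isOpen_compl_iff, isOpen_iff_mem_nhds]
  rintro ⟨y, c⟩ hp
  simp only [mem_compl_iff, mem_ofPred_eq, not_forall] at hp
  obtain ⟨hxy, hne⟩ := hp
  obtain ⟨n, h1, h2⟩ := exists_diff hxy
  have hO : IsOpen {p : G × (G → Bool) | (∀ i < n + 1, p.1 i = y i) ∧ p.2 x = c x} := by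
    apply IsOpen.inter
    · exact (isOpen_cyl y (n + 1)).preimage continuous_fst
    · have hc : Continuous (fun p : G × (G → Bool) => p.2 x) :=
        (continuous_apply x).comp continuous_snd
      exact (isOpen_discrete ({c x} : Set Bool)).preimage hc
  refine Filter.mem_of_superset (hO.mem_nhds ⟨fun i _ => rfl, rfl⟩) ?_
  rintro ⟨y', c'⟩ ⟨hy0, hc'⟩
  have hy' : ∀ i < n + 1, y' i = y i := hy0
  simp only [mem_compl_iff, mem_ofPred_eq, not_forall]
  have h3 : ∀ i < n, x i = y' i := fun i hi => by rw [h1 i hi, hy' i (by omega)]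
  have h4 : x n ≠ y' n := by rw [hy' n (by omega)]; exact h2
  refine ⟨fun hh => h4 (congrFun hh n), ?_⟩
  rw [R_eq h3 h4, hy' n (by omega), ← R_eq h1 h2]
  have : c' x = c x := hc'
  rw [this]
  exact hne

instance : CompactSpace X := isCompact_iff_compactSpace.1 isClosed_X.isCompact

/-! homogeneity -/

/-- a homeomorphism of the base that preserves or reverses the relation lifts -/
noncomputable def lift (σ : G ≃ₜ G) (b : Bool)
    (h : ∀ x y, x ≠ y → R (σ x) (σ y) = xor (R x y) b) : X ≃ₜ X where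
  toFun p := ⟨(σ p.1.1, fun x => xor (p.1.2 (σ.symm x)) b), by
    intro x hx
    have hx' : σ.symm x ≠ p.1.1 := fun hh => hx (by rw [← hh]; simp)
    have h1 := h _ _ hx'
    rw [Homeomorph.apply_symm_apply] at h1
    simp only
    rw [h1, p.2 _ hx']⟩
  invFun p := ⟨(σ.symm p.1.1, fun x => xor (p.1.2 (σ x)) b), by
    intro x hx
    have hx' : σ x ≠ p.1.1 := fun hh => hx (by rw [← hh]; simp)
    have h1 := h x (σ.symm p.1.1) hx
    rw [Homeomorph.apply_symm_apply] at h1
    simp only
    rw [p.2 _ hx', h1, Bool.xor_assoc, Bool.xor_self, Bool.xor_false]⟩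
  left_inv p := by
    apply Subtype.ext
    apply Prod.ext
    · simp
    · funext x
      simp
  right_inv p := by
    apply Subtype.ext
    apply Prod.ext
    · simp
    · funext x
      simp
  continuous_toFun := by
    apply Continuous.subtype_mk
    apply Continuous.prodMk
    · exact σ.continuous.comp continuous_pr
    · apply continuous_pi
      intro x
      exact (continuous_of_discreteTopology (f := fun t : Bool => xor t b)).comp
        (continuous_e (σ.symm x))
  continuous_invFun := by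
    apply Continuous.subtype_mk
    apply Continuous.prodMk
    · exact σ.symm.continuous.comp continuous_pr
    · apply continuous_pi
      intro x
      exact (continuous_of_discreteTopology (f := fun t : Bool => xor t b)).comp
        (continuous_e (σ x))

lemma lift_pt (σ : G ≃ₜ G) (b : Bool) (h) (x : G) (i : Bool) :
    lift σ b h (pt x i) = pt (σ x) (xor i b) := by
  apply ext_X
  · rfl
  · have h1 : pr (lift σ b h (pt x i)) = σ x := rfl
    rw [h1, e_pt_self]
    show xor ((pt x i).1.2 (σ.symm (σ x))) b = xor i b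
    rw [Homeomorph.symm_apply_apply]
    have : (pt x i).1.2 x = i := e_pt_self x i
    rw [this]

lemma R_add (a x y : G) (hxy : x ≠ y) : R (x + a) (y + a) = R x y := by
  obtain ⟨n, h1, h2⟩ := exists_diff hxy
  rw [R_eq h1 h2, R_eq (n := n)]
  · simp
  · intro i hi
    simp [h1 i hi]
  · simpa using h2

/-- multiplier of a level -/
def mul (t : Bool) : Fin 5 := if t then 2 else 4

/-- inverse multiplier of a level -/
def mulInv (t : Bool) : Fin 5 := if t then 3 else 4

lemma mul_fact : ∀ t : Bool, ∀ a : Fin 5, mulInv t * (mul t * a) = a ∧ mul t * (mulInv t * a) = a := by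
  decide +kernel

lemma mul_rho : ∀ t : Bool, ∀ a b : Fin 5, a ≠ b → rho t (mul t * a - mul t * b) =
    xor (rho t (a - b)) true := by decide +kernel

/-- the homeomorphism of the base reversing the relation -/
def rev : G ≃ₜ G where
  toFun x n := mul (w n) * x n
  invFun x n := mulInv (w n) * x n
  left_inv x := by
    funext n
    exact (mul_fact (w n) (x n)).1
  right_inv x := by
    funext n
    exact (mul_fact (w n) (x n)).2
  continuous_toFun := by
    apply continuous_pi
    intro n
    exact (continuous_of_discreteTopology (f := fun t : Fin 5 => mul (w n) * t)).comp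
      (continuous_apply n)
  continuous_invFun := by
    apply continuous_pi
    intro n
    exact (continuous_of_discreteTopology (f := fun t : Fin 5 => mulInv (w n) * t)).comp
      (continuous_apply n)

lemma R_rev (x y : G) (hxy : x ≠ y) : R (rev x) (rev y) = xor (R x y) true := by
  obtain ⟨n, h1, h2⟩ := exists_diff hxy
  rw [R_eq h1 h2, R_eq (n := n)]
  · exact mul_rho (w n) (y n) (x n) (Ne.symm h2)
  · intro i hi
    show mul (w i) * x i = mul (w i) * y i
    rw [h1 i hi]
  · show mul (w n) * x n ≠ mul (w n) * y n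
    intro hh
    apply h2
    have h3 := congrArg (fun t => mulInv (w n) * t) hh
    rw [(mul_fact (w n) (x n)).1, (mul_fact (w n) (y n)).1] at h3
    exact h3

theorem homogeneous (p q : X) : ∃ h : X ≃ₜ X, h p = q := by
  let T (a : G) : X ≃ₜ X := lift (Homeomorph.addRight a) false
    (fun x y hxy => by simpa using R_add a x y hxy)
  have hT : ∀ a x i, T a (pt x i) = pt (x + a) i := by
    intro a x i
    have := lift_pt (Homeomorph.addRight a) false
      (fun x y hxy => by simpa using R_add a x y hxy) x i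
    simpa using this
  let S : X ≃ₜ X := lift rev true R_rev
  have hS : ∀ i, S (pt 0 i) = pt 0 (!i) := by
    intro i
    have h1 := lift_pt rev true R_rev 0 i
    have h2 : rev (0 : G) = 0 := by
      funext n
      show mul (w n) * 0 = 0
      simp
    rw [h2] at h1
    simpa using h1
  have key : ∀ (x y : G) (i j : Bool), ∃ h : X ≃ₜ X, h (pt x i) = pt y j := by
    intro x y i j
    by_cases hij : i = j
    · refine ⟨T (y - x), ?_⟩
      rw [hT, hij]
      congr 1
      abel
    · refine ⟨((T (-x)).trans S).trans (T y), ?_⟩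
      show T y (S (T (-x) (pt x i))) = pt y j
      rw [hT]
      have : x + -x = 0 := by abel
      rw [this, hS, hT, zero_add]
      congr 1
      cases i <;> cases j <;> simp_all
  obtain ⟨h, hh⟩ := key (pr p) (pr q) (e (pr p) p) (e (pr q) q)
  rw [pt_pr, pt_pr] at hh
  exact ⟨h, hh⟩

/-! neighbourhoods -/

lemma nhd_point {O : Set X} (hO : IsOpen O) {x : G} {i : Bool} (h : pt x i ∈ O) :
    ∃ n, ∀ p : X, (∀ j < n, pr p j = x j) → e x p = i → p ∈ O := by
  let U : ℕ → Set X := fun n => O ∪ ({p | ∀ j < n, pr p j = x j}ᶜ ∪ {p | e x p = i}ᶜ)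
  have hU : ∀ n, IsOpen (U n) := by
    intro n
    refine hO.union (IsOpen.union ?_ ?_)
    · exact ((isClosed_cyl x n).preimage continuous_pr).isOpen_compl
    · exact ((isClosed_discrete ({i} : Set Bool)).preimage (continuous_e x)).isOpen_compl
  have hmono : Monotone U := by
    intro m n hmn
    refine union_subset_union_right _ (union_subset_union_left _ ?_)
    refine compl_subset_compl.2 ?_
    intro p hp j hj
    exact hp j (lt_of_lt_of_le hj hmn)
  have hcov : (univ : Set X) ⊆ ⋃ n, U n := by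
    intro p _
    by_cases hp : pr p = x
    · by_cases hi : e x p = i
      · refine mem_iUnion.2 ⟨0, Or.inl ?_⟩
        have := pt_pr p
        rw [hp, hi] at this
        rw [← this]
        exact h
      · exact mem_iUnion.2 ⟨0, Or.inr (Or.inr hi)⟩
    · obtain ⟨n, hn⟩ := Function.ne_iff.1 hp
      refine mem_iUnion.2 ⟨n + 1, Or.inr (Or.inl ?_)⟩
      intro hh
      exact hn (hh n (Nat.lt_succ_self n))
  obtain ⟨n, hn⟩ := isCompact_univ.elim_directed_cover U hU hcov (directed_of_isDirected_le hmono)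
  refine ⟨n, fun p h1 h2 => ?_⟩
  rcases hn (mem_univ p) with h3 | h3 | h3
  · exact h3
  · exact absurd h1 h3
  · exact absurd h2 h3

lemma nhd_fiber {φ : X → Bool} (hφ : Continuous φ) {x : G} {c : Bool}
    (h : ∀ i, φ (pt x i) = c) : ∃ n, ∀ p : X, (∀ j < n, pr p j = x j) → φ p = c := by
  have hO : IsOpen {p : X | φ p = c} := (isOpen_discrete ({c} : Set Bool)).preimage hφ
  obtain ⟨n, hn⟩ := nhd_point hO (h false)
  obtain ⟨m, hm⟩ := nhd_point hO (h true)
  refine ⟨max n m, fun p hp => ?_⟩
  have h1 := hn p (fun j hj => hp j (lt_of_lt_of_le hj (le_max_left _ _)))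
  have h2 := hm p (fun j hj => hp j (lt_of_lt_of_le hj (le_max_right _ _)))
  cases hi : e x p
  · exact h1 hi
  · exact h2 hi

lemma finite_split {φ : X → Fin 5} (hφ : Continuous φ) :
    {x : G | φ (pt x false) ≠ φ (pt x true)}.Finite := by
  have hch : ∀ p : X, ∃ n, ∀ p' : X, (∀ j < n, pr p' j = pr p j) → e (pr p) p' = e (pr p) p →
      φ p' = φ p := by
    intro p
    have hO : IsOpen {p' : X | φ p' = φ p} := (isOpen_discrete ({φ p} : Set (Fin 5))).preimage hφ
    apply nhd_point hO
    rw [pt_pr]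
    rfl
  choose n hn using hch
  let W : X → Set X := fun p => {p' | (∀ j < n p, pr p' j = pr p j) ∧ e (pr p) p' = e (pr p) p}
  have hW : ∀ p, W p ∈ 𝓝 p := by
    intro p
    apply IsOpen.mem_nhds
    · apply IsOpen.inter
      · exact (isOpen_cyl (pr p) (n p)).preimage continuous_pr
      · exact (isOpen_discrete ({e (pr p) p} : Set Bool)).preimage (continuous_e (pr p))
    · exact ⟨fun j _ => rfl, rfl⟩
  obtain ⟨t, ht⟩ := CompactSpace.elim_nhds_subcover W hW
  refine (t.finite_toSet.image pr).subset ?_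
  intro x hx
  by_contra hcon
  have h0 : pt x false ∈ ⋃ p ∈ t, W p := by rw [ht]; trivial
  simp only [mem_iUnion] at h0
  obtain ⟨p, hp, hpx⟩ := h0
  have hne : pr p ≠ x := fun hh => hcon ⟨p, hp, hh⟩
  have h1 : pt x true ∈ W p := by
    refine ⟨hpx.1, ?_⟩
    have e1 : e (pr p) (pt x true) = R (pr p) x := e_of_ne hne
    have e2 : e (pr p) (pt x false) = R (pr p) x := e_of_ne hne
    rw [e1, ← e2]
    exact hpx.2
  apply hx
  rw [hn p _ hpx.1 hpx.2, hn p _ h1.1 h1.2]

lemma countable_split {u : X → X} (hu : Continuous u) :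
    {x : G | pr (u (pt x false)) ≠ pr (u (pt x true))}.Countable := by
  have : {x : G | pr (u (pt x false)) ≠ pr (u (pt x true))} ⊆
      ⋃ k : ℕ, {x : G | pr (u (pt x false)) k ≠ pr (u (pt x true)) k} := by
    intro x hx
    obtain ⟨k, hk⟩ := Function.ne_iff.1 hx
    exact mem_iUnion.2 ⟨k, hk⟩
  refine (countable_iUnion fun k => ?_).mono this
  have hφ : Continuous (fun p : X => pr (u p) k) :=
    (continuous_apply k).comp (continuous_pr.comp hu)
  exact (finite_split hφ).countable

/-! the analysis of a section-retraction pair -/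

/-- `x` is matched with `z` at level `n` with sign `s` -/
def Good (u f : X → X) (n : ℕ) (s : Bool) (x z : G) : Prop :=
  (∀ p : X, (∀ j < n, pr p j = x j) → e z (u p) = xor (e x p) s) ∧
  (∀ q : X, (∀ j < n, pr q j = z j) → e x (f q) = xor (e z q) s) ∧
  (∀ i, pr (u (pt x i)) = z)

lemma Good.mono {u f : X → X} {n m : ℕ} (hnm : n ≤ m) {s : Bool} {x z : G}
    (h : Good u f n s x z) : Good u f m s x z :=
  ⟨fun p hp => h.1 p (fun j hj => hp j (lt_of_lt_of_le hj hnm)),
    fun q hq => h.2.1 q (fun j hj => hq j (lt_of_lt_of_le hj hnm)), h.2.2⟩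

lemma exists_good {u f : X → X} (hu : Continuous u) (hf : Continuous f)
    (hfu : ∀ p, f (u p) = p) (x : G) (hx : pr (u (pt x false)) = pr (u (pt x true))) :
    ∃ n s z, Good u f n s x z := by
  let z := pr (u (pt x false))
  have hz : ∀ i, pr (u (pt x i)) = z := by
    intro i
    cases i
    · rfl
    · exact hx.symm
  let s := e z (u (pt x false))
  have hs : ∀ i, e z (u (pt x i)) = xor i s := by
    intro i
    cases i
    · show s = xor false s
      rw [Bool.false_xor]
    · -- injectivity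
      have hne : e z (u (pt x true)) ≠ s := by
        intro hh
        have h1 : u (pt x false) = u (pt x true) := by
          apply ext_X hx
          exact hh.symm
        have h2 : pt x false = pt x true := by rw [← hfu (pt x false), h1, hfu]
        have h3 : e x (pt x false) = e x (pt x true) := by rw [h2]
        rw [e_pt_self, e_pt_self] at h3
        exact absurd h3 (by decide)
      cases hs : s <;> cases hh : e z (u (pt x true)) <;> simp_all
  have hupt : ∀ i, u (pt x i) = pt z (xor i s) := by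
    intro i
    have := pt_pr (u (pt x i))
    rw [hz i, hs i] at this
    exact this.symm
  have h1 : ∃ n, ∀ p : X, (∀ j < n, pr p j = x j) → xor (e z (u p)) (e x p) = s := by
    apply nhd_fiber (φ := fun p => xor (e z (u p)) (e x p))
    · exact (continuous_of_discreteTopology (f := fun t : Bool × Bool => xor t.1 t.2)).comp
        (((continuous_e z).comp hu).prodMk (continuous_e x))
    · intro i
      rw [hs i, e_pt_self]
      cases i <;> cases s <;> rfl
  have h2 : ∃ n, ∀ q : X, (∀ j < n, pr q j = z j) → xor (e x (f q)) (e z q) = s := by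
    apply nhd_fiber (φ := fun q => xor (e x (f q)) (e z q))
    · exact (continuous_of_discreteTopology (f := fun t : Bool × Bool => xor t.1 t.2)).comp
        (((continuous_e x).comp hf).prodMk (continuous_e z))
    · intro i
      have h3 : pt z i = u (pt x (xor i s)) := by
        rw [hupt]
        congr 1
        cases i <;> cases s <;> rfl
      rw [e_pt_self]
      conv_lhs => rw [h3, hfu]
      rw [e_pt_self]
      cases i <;> cases s <;> rfl
  obtain ⟨n, hn⟩ := h1
  obtain ⟨m, hm⟩ := h2
  refine ⟨max n m, s, z, ?_, ?_, hz⟩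
  · intro p hp
    have h3 := hn p (fun j hj => hp j (lt_of_lt_of_le hj (le_max_left _ _)))
    rw [← h3]
    cases e z (u p) <;> cases e x p <;> rfl
  · intro q hq
    have h3 := hm q (fun j hj => hq j (lt_of_lt_of_le hj (le_max_right _ _)))
    rw [← h3]
    cases e x (f q) <;> cases e z q <;> rfl

lemma locate {l : ℕ} {zs : Fin 5 → G} {z : G} (h1 : ∀ a, ∀ i < l, zs a i = z i)
    {ψ : Fin 5 → Fin 5} (hψ : Function.Bijective ψ) (h2 : ∀ a, zs a l = ψ a) {p : X} {a₀ : Fin 5}
    (hp : ∀ a, a ≠ a₀ → e (zs a) p = rho (w l) (ψ a₀ - ψ a)) :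
    (∀ i < l, pr p i = z i) ∧ pr p l = ψ a₀ := by
  by_cases h : ∀ i < l, pr p i = z i
  · refine ⟨h, ?_⟩
    by_contra hne
    obtain ⟨d, hd1, hd2, hd3⟩ := twin_fact (w l) (ψ a₀) (pr p l) (Ne.symm hne)
    obtain ⟨a, rfl⟩ := hψ.2 d
    have ha : a ≠ a₀ := fun hh => hd1 (by rw [hh])
    have h3 := hp a ha
    have h4 : zs a l ≠ pr p l := by rw [h2]; exact hd2
    have h5 : zs a ≠ pr p := fun hh => h4 (congrFun hh l)
    rw [e_of_ne h5, R_eq (fun i hi => by rw [h1 a i hi, h i hi]) h4, h2] at h3
    exact hd3 h3.symm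
  · exfalso
    have hex : ∃ i, i < l ∧ pr p i ≠ z i := by
      by_contra hcon
      apply h
      intro i hi
      by_contra hne
      exact hcon ⟨i, hi, hne⟩
    classical
    let k := Nat.find hex
    obtain ⟨hk1, hk2⟩ := Nat.find_spec hex
    have hkmin : ∀ i < k, pr p i = z i := by
      intro i hi
      by_contra hne
      exact Nat.find_min hex hi ⟨lt_trans hi hk1, hne⟩
    have hconst : ∀ a, e (zs a) p = rho (w k) (pr p k - z k) := by
      intro a
      have h4 : zs a k ≠ pr p k := by rw [h1 a k hk1]; exact Ne.symm hk2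
      have h5 : zs a ≠ pr p := fun hh => h4 (congrFun hh k)
      rw [e_of_ne h5, R_eq (fun i hi => by rw [h1 a i (lt_trans hi hk1), hkmin i hi]) h4,
        h1 a k hk1]
    obtain ⟨d, d', hd, hd', hdd⟩ := nonconst_fact (w l) (ψ a₀)
    obtain ⟨a, rfl⟩ := hψ.2 d
    obtain ⟨a', rfl⟩ := hψ.2 d'
    apply hdd
    rw [← hp a (fun hh => hd (by rw [hh])), ← hp a' (fun hh => hd' (by rw [hh])), hconst, hconst]

/-- a ball of level `m` around `x` is matched with a ball of level `l` around `z` -/
structure Match (u f : X → X) (n : ℕ) (s : Bool) (x : G) (m : ℕ) (z : G) (l : ℕ)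
    (ψ : Fin 5 → Fin 5) (xs zs : Fin 5 → G) : Prop where
  bij : Function.Bijective ψ
  xs1 : ∀ a, ∀ i < m, xs a i = x i
  xs2 : ∀ a, xs a m = a
  zs1 : ∀ a, ∀ i < l, zs a i = z i
  zs2 : ∀ a, zs a l = ψ a
  good : ∀ a, Good u f n s (xs a) (zs a)
  typ : w l = w m
  rel : ∀ a c, a ≠ c → rho (w l) (ψ c - ψ a) = xor (rho (w m) (c - a)) s

lemma exists_match {u f : X → X} (hfu : ∀ p, f (u p) = p) {n m : ℕ} (hnm : n ≤ m) {s : Bool}
    {x : G} (h : ∀ a, ∃ x' z', Good u f n s x' z' ∧ (∀ i < m, x' i = x i) ∧ x' m = a) :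
    ∃ z l ψ xs zs, Match u f n s x m z l ψ xs zs := by
  classical
  choose xs zs hgood hxs1 hxs2 using h
  have hxne : ∀ a c, a ≠ c → xs a ≠ xs c := by
    intro a c hac hh
    apply hac
    rw [← hxs2 a, ← hxs2 c, hh]
  have hcyl : ∀ a c, ∀ j < n, xs c j = xs a j := by
    intro a c j hj
    rw [hxs1 c j (by omega), hxs1 a j (by omega)]
  have hzne : ∀ a c, a ≠ c → zs a ≠ zs c := by
    intro a c hac hh
    have h1 := (hgood a).1 (pt (xs a) false) (fun j _ => rfl)
    have h2 := (hgood c).1 (pt (xs c) false) (fun j _ => rfl)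
    rw [e_pt_self] at h1 h2
    have h3 := (hgood a).2.2 false
    have h4 := (hgood c).2.2 false
    have h5 : u (pt (xs a) false) = u (pt (xs c) false) := by
      apply ext_X
      · rw [h3, h4, hh]
      · rw [h3, h1, hh, h2]
    have h6 : pt (xs a) false = pt (xs c) false := by rw [← hfu (pt (xs a) false), h5, hfu]
    exact hxne a c hac (congrArg pr h6)
  have hR : ∀ a c, a ≠ c → R (zs a) (zs c) = xor (rho (w m) (c - a)) s := by
    intro a c hac
    have h1 := (hgood a).1 (pt (xs c) false) (fun j hj => hcyl a c j hj)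
    have h2 : e (xs a) (pt (xs c) false) = R (xs a) (xs c) := e_of_ne (hxne a c hac)
    have h3 : R (xs a) (xs c) = rho (w m) (c - a) := by
      rw [R_eq (n := m), hxs2, hxs2]
      · intro i hi
        rw [hxs1 a i hi, hxs1 c i hi]
      · rw [hxs2, hxs2]
        exact hac
    have h4 : pr (u (pt (xs c) false)) = zs c := (hgood c).2.2 false
    have h5 : e (zs a) (u (pt (xs c) false)) = R (zs a) (zs c) := by
      rw [e_of_ne (by rw [h4]; exact hzne a c hac), h4]
    rw [← h5, h1, h2, h3]
  have hex : ∃ k, ∃ a c, zs a k ≠ zs c k := by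
    obtain ⟨k, hk⟩ := Function.ne_iff.1 (hzne 0 1 (by decide))
    exact ⟨k, 0, 1, hk⟩
  let l := Nat.find hex
  have hl : ∃ a c, zs a l ≠ zs c l := Nat.find_spec hex
  have hlmin : ∀ i < l, ∀ a c, zs a i = zs c i := by
    intro i hi a c
    by_contra hne
    exact Nat.find_min hex hi ⟨a, c, hne⟩
  let ψ : Fin 5 → Fin 5 := fun a => zs a l
  have hψ := psi_fact (w m) (w l) s ψ hl (by
    intro a c hac
    have hac' : a ≠ c := fun hh => hac (by rw [hh])
    rw [← hR a c hac', R_eq (fun i hi => hlmin i hi a c) hac])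
  have hbij : Function.Bijective ψ := Finite.injective_iff_bijective.1 hψ.1
  refine ⟨zs 0, l, ψ, xs, zs, hbij, hxs1, hxs2, fun a i hi => hlmin i hi a 0, fun a => rfl,
    hgood, hψ.2.symm, ?_⟩
  intro a c hac
  have hac2 : zs a l ≠ zs c l := fun hh => hac (hψ.1 hh)
  rw [← hR a c hac, R_eq (fun i hi => hlmin i hi a c) hac2]

lemma Match.fwd {u f : X → X} {n : ℕ} {s : Bool} {x : G} {m : ℕ} {z : G} {l : ℕ}
    {ψ : Fin 5 → Fin 5} {xs zs : Fin 5 → G} (M : Match u f n s x m z l ψ xs zs) (hnm : n ≤ m)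
    (p : X) (hp : ∀ i < m, pr p i = x i) :
    (∀ i < l, pr (u p) i = z i) ∧ pr (u p) l = ψ (pr p m) := by
  apply locate M.zs1 M.bij M.zs2
  intro c hc
  have h1 := (M.good c).1 p (fun j hj => by rw [hp j (by omega), M.xs1 c j (by omega)])
  have h2 : xs c m ≠ pr p m := by rw [M.xs2]; exact hc
  have h3 : xs c ≠ pr p := fun hh => h2 (congrFun hh m)
  rw [h1, e_of_ne h3, R_eq (fun i hi => by rw [M.xs1 c i hi, hp i hi]) h2, M.xs2,
    M.rel c (pr p m) hc]

lemma Match.bwd {u f : X → X} {n : ℕ} {s : Bool} {x : G} {m : ℕ} {z : G} {l : ℕ}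
    {ψ : Fin 5 → Fin 5} {xs zs : Fin 5 → G} (M : Match u f n s x m z l ψ xs zs) (hnl : n ≤ l)
    (q : X) (hq : ∀ i < l, pr q i = z i) :
    (∀ i < m, pr (f q) i = x i) ∧ ψ (pr (f q) m) = pr q l := by
  obtain ⟨a, ha⟩ := M.bij.2 (pr q l)
  have hkey : (∀ i < m, pr (f q) i = x i) ∧ pr (f q) m = id a := by
    apply locate M.xs1 Function.bijective_id (fun a => M.xs2 a)
    intro c hc
    have h1 := (M.good c).2.1 q (fun j hj => by rw [hq j (by omega), M.zs1 c j (by omega)])
    have h2 : zs c l ≠ pr q l := by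
      rw [M.zs2, ← ha]
      exact fun hh => hc (M.bij.1 hh)
    have h3 : zs c ≠ pr q := fun hh => h2 (congrFun hh l)
    rw [h1, e_of_ne h3, R_eq (fun i hi => by rw [M.zs1 c i hi, hq i hi]) h2, M.zs2, ← ha,
      M.rel c a hc, Bool.xor_assoc, Bool.xor_self, Bool.xor_false]
    rfl
  refine ⟨hkey.1, ?_⟩
  rw [hkey.2]
  exact ha

lemma chain {u f : X → X} {n : ℕ} {s : Bool} {x : G} {m : ℕ} (hnm : n ≤ m) {z₀ : G} {l₀ : ℕ}
    {ψ₀ : Fin 5 → Fin 5} {xs₀ zs₀ : Fin 5 → G} (M₀ : Match u f n s x m z₀ l₀ ψ₀ xs₀ zs₀)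
    {z₁ : G} {l₁ : ℕ} {ψ₁ : Fin 5 → Fin 5} {xs₁ zs₁ : Fin 5 → G}
    (M₁ : Match u f n s x (m + 1) z₁ l₁ ψ₁ xs₁ zs₁) :
    l₀ + 1 ≤ l₁ ∧ (n ≤ l₀ → l₁ = l₀ + 1) := by
  -- points of the smaller ball
  have hpt : ∀ a, (∀ i < l₁, pr (u (pt (xs₁ a) false)) i = z₁ i) ∧
      pr (u (pt (xs₁ a) false)) l₁ = ψ₁ a := by
    intro a
    have := M₁.fwd (by omega) (pt (xs₁ a) false) (fun i hi => M₁.xs1 a i hi)
    rw [pr_pt, M₁.xs2] at this
    exact this
  have hpt0 : ∀ a, (∀ i < l₀, pr (u (pt (xs₁ a) false)) i = z₀ i) ∧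
      pr (u (pt (xs₁ a) false)) l₀ = ψ₀ (x m) := by
    intro a
    have := M₀.fwd hnm (pt (xs₁ a) false) (fun i hi => M₁.xs1 a i (by omega))
    rw [pr_pt, M₁.xs1 a m (by omega)] at this
    exact this
  have hle : l₀ + 1 ≤ l₁ := by
    by_contra hcon
    have hl : l₁ ≤ l₀ := by omega
    have hconst : ∀ a c, ψ₁ a = ψ₁ c := by
      intro a c
      rw [← (hpt a).2, ← (hpt c).2]
      rcases Nat.lt_or_ge l₁ l₀ with h | h
      · rw [(hpt0 a).1 l₁ h, (hpt0 c).1 l₁ h]
      · have : l₁ = l₀ := by omega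
        rw [this, (hpt0 a).2, (hpt0 c).2]
    exact absurd (M₁.bij.1 (hconst 0 1)) (by decide)
  refine ⟨hle, fun hn => ?_⟩
  by_contra hne
  have hlt : l₀ + 1 < l₁ := by omega
  have hz01 : ∀ i < l₀, z₁ i = z₀ i := by
    intro i hi
    rw [← (hpt 0).1 i (by omega), (hpt0 0).1 i hi]
  have hz1 : z₁ l₀ = ψ₀ (x m) := by
    rw [← (hpt 0).1 l₀ (by omega), (hpt0 0).2]
  let z' : G := Function.update z₁ (l₀ + 1) (z₁ (l₀ + 1) + 1)
  have hz'1 : ∀ i < l₀ + 1, z' i = z₁ i := by
    intro i hi
    exact Function.update_of_ne (by omega) _ _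
  have hz'2 : z' (l₀ + 1) = z₁ (l₀ + 1) + 1 := Function.update_self _ _ _
  have hb := M₀.bwd hn (pt z' false) (fun i hi => by
    rw [pr_pt, hz'1 i (by omega), hz01 i hi])
  have hb2 : pr (f (pt z' false)) m = x m := by
    apply M₀.bij.1
    rw [hb.2, pr_pt, hz'1 l₀ (by omega), hz1]
  set y := pr (f (pt z' false)) with hy
  have hy1 : ∀ i < m + 1, y i = x i := by
    intro i hi
    rcases Nat.lt_or_ge i m with h | h
    · exact hb.1 i h
    · have : i = m := by omega
      rw [this]
      exact hb2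
  have hconst : ∀ c, c ≠ y (m + 1) → rho (w (m + 1)) (y (m + 1) - c) =
      xor (rho (w (l₀ + 1)) 1) s := by
    intro c hc
    have h1 := (M₁.good c).2.1 (pt z' false) (fun j hj => by
      rw [pr_pt, hz'1 j (by omega), M₁.zs1 c j (by omega)])
    have h2 : xs₁ c (m + 1) ≠ y (m + 1) := by rw [M₁.xs2]; exact hc
    have h3 : xs₁ c ≠ pr (f (pt z' false)) := fun hh => h2 (congrFun hh (m + 1))
    have h4 : zs₁ c (l₀ + 1) ≠ z' (l₀ + 1) := by
      rw [hz'2, M₁.zs1 c _ hlt]
      intro hh
      have : (1 : Fin 5) = 0 := by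
        have h5 : z₁ (l₀ + 1) + 1 = z₁ (l₀ + 1) + 0 := by rw [add_zero]; exact hh.symm
        exact add_left_cancel h5
      exact absurd this (by decide)
    have h5 : zs₁ c ≠ pr (pt z' false) := fun hh => h4 (congrFun hh (l₀ + 1))
    rw [e_of_ne h3, e_of_ne h5, pr_pt,
      R_eq (x := zs₁ c) (y := z') (n := l₀ + 1)
        (fun i hi => by rw [hz'1 i hi, M₁.zs1 c i (by omega)]) h4,
      R_eq (x := xs₁ c) (n := m + 1) (fun i hi => by
        rw [M₁.xs1 c i hi]; exact (hy1 i hi).symm) h2, M₁.xs2, hz'2, M₁.zs1 c _ hlt,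
      add_sub_cancel_left] at h1
    exact h1
  obtain ⟨d, d', hd, hd', hdd⟩ := nonconst_fact (w (m + 1)) (y (m + 1))
  apply hdd
  rw [hconst d hd, hconst d' hd']

/-- balls of level `m` matched with balls of level `m` -/
def VG (u f : X → X) (m : ℕ) (x : G) : Prop :=
  ∃ z₀ : G, (∃ p : X, ∀ i < m, pr (u p) i = z₀ i) ∧
    ∀ q : X, (∀ i < m, pr q i = z₀ i) → ∀ i < m, pr (f q) i = x i

lemma eventually_VG {u f : X → X} (hfu : ∀ p, f (u p) = p) {n M : ℕ} (hnM : n ≤ M) {s : Bool}
    {x : G} (h : ∀ m, M ≤ m → ∀ a, ∃ x' z', Good u f n s x' z' ∧ (∀ i < m, x' i = x i) ∧ x' m = a) :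
    ∃ M₁, ∀ m, M₁ ≤ m → VG u f m x := by
  have hM : ∀ k : ℕ, ∃ z l ψ xs zs, Match u f n s x (M + k) z l ψ xs zs := fun k =>
    exists_match hfu (by omega) (h (M + k) (by omega))
  choose z l ψ xs zs hMatch using hM
  have hchain : ∀ k, l k + 1 ≤ l (k + 1) ∧ (n ≤ l k → l (k + 1) = l k + 1) := fun k =>
    chain (by omega) (hMatch k) (hMatch (k + 1))
  have hlk : ∀ k, k ≤ l k := by
    intro k
    induction k with
    | zero => exact Nat.zero_le _
    | succ k ih => have := (hchain k).1; omega
  have hlin : ∀ j, l (n + j) = l n + j := by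
    intro j
    induction j with
    | zero => rfl
    | succ j ih =>
      have h1 := (hchain (n + j)).2 (by have := hlk (n + j); omega)
      have h2 : n + (j + 1) = n + j + 1 := by omega
      rw [h2, h1, ih]
      omega
  have hshift : l n = M + n := by
    apply w_shift
    intro j
    rw [← hlin j, (hMatch (n + j)).typ]
    congr 1
    omega
  refine ⟨M + n, fun m hm => ?_⟩
  obtain ⟨j, rfl⟩ := Nat.exists_eq_add_of_le hm
  have hm2 : M + n + j = M + (n + j) := by omega
  have hl : l (n + j) = M + (n + j) := by rw [hlin, hshift]; omega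
  have hMj := hMatch (n + j)
  rw [hm2]
  refine ⟨z (n + j), ⟨pt x false, ?_⟩, ?_⟩
  · intro i hi
    exact (hMj.fwd (by omega) (pt x false) (fun i _ => rfl)).1 i (by rw [hl]; exact hi)
  · intro q hq
    exact (hMj.bwd (by rw [hl]; omega) q (fun i hi => hq i (by rw [hl] at hi; exact hi))).1

/-! measure -/

/-- normalized Haar measure on the base -/
noncomputable def μ : Measure G := Measure.addHaarMeasure ⊤

instance : IsProbabilityMeasure μ := by
  constructor
  have := Measure.addHaarMeasure_self (G := G) (K₀ := ⊤)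
  simpa [μ] using this

instance : μ.IsAddHaarMeasure := by unfold μ; infer_instance

instance : μ.IsAddRightInvariant := by unfold μ; infer_instance

lemma measure_cyl (x : G) (n : ℕ) : μ {y : G | ∀ i < n, y i = x i} = μ {y : G | ∀ i < n, y i = 0} := by
  have : {y : G | ∀ i < n, y i = x i} = (fun y : G => y + -x) ⁻¹' {y : G | ∀ i < n, y i = 0} := by
    ext y
    simp only [mem_ofPred_eq, mem_preimage, Pi.add_apply, Pi.neg_apply]
    constructor
    · intro h i hi
      rw [h i hi]
      exact add_neg_cancel _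
    · intro h i hi
      exact add_neg_eq_zero.1 (h i hi)
  rw [this, measure_preimage_add_right]

lemma measure_cyl_pos (x : G) (n : ℕ) : 0 < μ {y : G | ∀ i < n, y i = x i} :=
  (isOpen_cyl x n).measure_pos μ ⟨x, fun _ _ => rfl⟩

lemma measure_point (x : G) : μ {x} = 0 := by
  by_contra h
  let pts : ℕ → G := fun k => Pi.single k 1
  have hinj : Function.Injective pts := by
    intro a b hab
    by_contra hne
    have h1 := congrFun hab a
    simp only [pts, Pi.single_eq_same, Pi.single_eq_of_ne hne] at h1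
    exact absurd h1 (by decide)
  have hconst : ∀ y : G, μ {y} = μ {x} := by
    intro y
    have : ({y} : Set G) = (fun t : G => t + (x - y)) ⁻¹' {x} := by
      ext t
      simp only [mem_singleton_iff, mem_preimage]
      constructor
      · rintro rfl
        abel
      · intro hh
        have : t = x - (x - y) := eq_sub_of_add_eq hh
        rw [this, sub_sub_cancel]
    rw [this, measure_preimage_add_right]
  have h1 : ∑' k, μ {pts k} ≤ μ (⋃ k, {pts k}) :=
    tsum_meas_le_meas_iUnion_of_disjoint μ (fun k => measurableSet_singleton _)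
      (fun a b hab => by
        show Disjoint {pts a} {pts b}
        rw [disjoint_singleton]
        exact fun hh => hab (hinj hh))
  simp only [hconst] at h1
  rw [ENNReal.tsum_const_eq_top_of_ne_zero h] at h1
  exact absurd (top_le_iff.1 h1) (measure_ne_top μ _)

lemma countable_null {S : Set G} (hS : S.Countable) : μ S = 0 := by
  have : S = ⋃ x ∈ S, {x} := by simp
  rw [this, measure_biUnion_null_iff hS]
  intro x _
  exact measure_point x

/-- sets that depend only on the first `m` coordinates -/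
def IsLevel (m : ℕ) (S : Set G) : Prop := ∀ x y : G, (∀ i < m, x i = y i) → x ∈ S → y ∈ S

lemma IsLevel.measurable {m : ℕ} {S : Set G} (h : IsLevel m S) : MeasurableSet S := by
  apply IsOpen.measurableSet
  rw [isOpen_iff_mem_nhds]
  intro x hx
  refine Filter.mem_of_superset ((isOpen_cyl x m).mem_nhds (fun i _ => rfl)) ?_
  intro y hy
  exact h x y (fun i hi => (hy i hi).symm) hx

/-- almost every point of `K` sees `K` in all the children of its small balls -/
lemma ae_density (K : Set G) : μ {x | x ∈ K ∧ ¬ ∃ M, ∀ m, M ≤ m → ∀ a : Fin 5, ∃ x' ∈ K,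
    (∀ i < m, x' i = x i) ∧ x' m = a} = 0 := by
  let S : ℕ → Set G := fun m => {x | (∃ x' ∈ K, ∀ i < m, x' i = x i) ∧
    ∃ a : Fin 5, ∀ x' ∈ K, (∀ i < m, x' i = x i) → x' m ≠ a}
  let T : ℕ → Set G := fun m => {x | (∃ x' ∈ K, ∀ i < m, x' i = x i) ∧
    ¬ ∃ x' ∈ K, ∀ i < m + 1, x' i = x i}
  have hTlev : ∀ m, IsLevel (m + 1) (T m) := by
    rintro m x y hxy ⟨⟨x', hx', h1⟩, h2⟩
    refine ⟨⟨x', hx', fun i hi => ?_⟩, ?_⟩
    · rw [h1 i hi, hxy i (by omega)]
    · rintro ⟨x'', hx'', h3⟩
      exact h2 ⟨x'', hx'', fun i hi => by rw [h3 i hi, hxy i hi]⟩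
  have hTdisj : Pairwise (Function.onFun Disjoint T) := by
    have key : ∀ m m', m < m' → Disjoint (T m) (T m') := by
      intro m m' hmm
      rw [Set.disjoint_left]
      rintro x ⟨_, h2⟩ ⟨⟨x', hx', h3⟩, _⟩
      exact h2 ⟨x', hx', fun i hi => h3 i (by omega)⟩
    intro m m' hne
    rcases Nat.lt_or_gt_of_ne hne with h | h
    · exact key m m' h
    · exact (key m' m h).symm
  have hTsum : ∑' m, μ (T m) ≤ 1 := by
    calc ∑' m, μ (T m) ≤ μ (⋃ m, T m) :=
          tsum_meas_le_meas_iUnion_of_disjoint μ (fun m => (hTlev m).measurable) hTdisj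
      _ ≤ 1 := prob_le_one
  have hST : ∀ m, μ (S m) ≤ 5 * μ (T m) := by
    intro m
    have hsub : S m ⊆ ⋃ b : Fin 5, (fun x : G => x + Pi.single m b) ⁻¹' T m := by
      rintro x ⟨⟨x', hx', h1⟩, a, h2⟩
      refine mem_iUnion.2 ⟨a - x m, ?_⟩
      show (x + Pi.single m (a - x m) : G) ∈ T m
      have hlow : ∀ i < m, (x + Pi.single m (a - x m) : G) i = x i := by
        intro i hi
        have : i ≠ m := by omega
        simp [Pi.single_eq_of_ne this]
      have hm : (x + Pi.single m (a - x m) : G) m = a := by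
        simp
      refine ⟨⟨x', hx', fun i hi => by rw [hlow i hi]; exact h1 i hi⟩, ?_⟩
      rintro ⟨x'', hx'', h3⟩
      apply h2 x'' hx''
      · intro i hi
        rw [h3 i (by omega), hlow i hi]
      · rw [h3 m (by omega), hm]
    calc μ (S m) ≤ μ (⋃ b : Fin 5, (fun x : G => x + Pi.single m b) ⁻¹' T m) := measure_mono hsub
      _ ≤ ∑ b : Fin 5, μ ((fun x : G => x + Pi.single m b) ⁻¹' T m) := by
          refine (measure_iUnion_le _).trans ?_
          rw [tsum_fintype]
      _ = ∑ b : Fin 5, μ (T m) := by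
          congr 1
          funext b
          exact measure_preimage_add_right μ (Pi.single m b) (T m)
      _ = 5 * μ (T m) := by
          rw [Finset.sum_const, Finset.card_univ, Fintype.card_fin, nsmul_eq_mul]
          rfl
  have hSsum : ∑' m, μ (S m) ≠ ⊤ := by
    have : ∑' m, μ (S m) ≤ 5 := by
      calc ∑' m, μ (S m) ≤ ∑' m, 5 * μ (T m) := ENNReal.tsum_le_tsum hST
        _ = 5 * ∑' m, μ (T m) := ENNReal.tsum_mul_left
        _ ≤ 5 * 1 := by gcongr
        _ = 5 := mul_one _
    exact ne_top_of_le_ne_top (by norm_num) this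
  have h0 := measure_setOfPred_frequently_eq_zero (p := fun m x => x ∈ S m) (μ := μ) hSsum
  apply measure_mono_null _ h0
  rintro x ⟨hxK, hx⟩
  show ∃ᶠ m in Filter.atTop, x ∈ S m
  rw [Filter.frequently_atTop]
  intro M
  by_contra hcon
  apply hx
  refine ⟨M, fun m hm a => ?_⟩
  by_contra hcon2
  apply hcon
  refine ⟨m, hm, ⟨x, hxK, fun i _ => rfl⟩, a, ?_⟩
  intro x' hx' h1 h2
  exact hcon2 ⟨x', hx', h1, h2⟩

lemma ae_VG {u f : X → X} (hu : Continuous u) (hf : Continuous f) (hfu : ∀ p, f (u p) = p) :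
    μ {x | ¬ ∃ M, ∀ m, M ≤ m → VG u f m x} = 0 := by
  let K : ℕ × Bool → Set G := fun ns => {x | ∃ z, Good u f ns.1 ns.2 x z}
  have hsub : {x | ¬ ∃ M, ∀ m, M ≤ m → VG u f m x} ⊆
      {x : G | pr (u (pt x false)) ≠ pr (u (pt x true))} ∪
      ⋃ ns : ℕ × Bool, {x | x ∈ K ns ∧ ¬ ∃ M, ∀ m, M ≤ m → ∀ a : Fin 5, ∃ x' ∈ K ns,
        (∀ i < m, x' i = x i) ∧ x' m = a} := by
    intro x hx
    by_contra hcon
    have h1 : pr (u (pt x false)) = pr (u (pt x true)) := by
      by_contra hc
      exact hcon (Or.inl hc)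
    obtain ⟨n, s, z, hg⟩ := exists_good hu hf hfu x h1
    have h3 : ∃ M, ∀ m, M ≤ m → ∀ a : Fin 5, ∃ x' ∈ K (n, s),
        (∀ i < m, x' i = x i) ∧ x' m = a := by
      by_contra hc
      exact hcon (Or.inr (mem_iUnion.2 ⟨(n, s), ⟨z, hg⟩, hc⟩))
    obtain ⟨M, hM⟩ := h3
    apply hx
    refine eventually_VG hfu (n := n) (M := max M n) (le_max_right _ _) (s := s) ?_
    intro m hm a
    obtain ⟨x', ⟨z', hz'⟩, h4, h5⟩ := hM m (le_trans (le_max_left _ _) hm) a
    exact ⟨x', z', hz', h4, h5⟩
  apply measure_mono_null hsub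
  rw [measure_union_null_iff]
  refine ⟨countable_null (countable_split hu), ?_⟩
  rw [measure_iUnion_null_iff]
  intro ns
  exact ae_density (K ns)

lemma measure_VG_le {u f : X → X} {z₁ : G} {m₁ : ℕ}
    (hmiss : ∀ p : X, ¬ ∀ i < m₁, pr (u p) i = z₁ i) {m : ℕ} (hm : m₁ ≤ m) :
    μ {x | VG u f m x} ≤ μ ({y : G | ∀ i < m₁, y i = z₁ i}ᶜ) := by
  classical
  let ext : (Fin m → Fin 5) → G := fun t i => if h : i < m then t ⟨i, h⟩ else 0
  let c : (Fin m → Fin 5) → Set G := fun t => {x | ∀ i < m, x i = ext t i}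
  have hext : ∀ t t' : Fin m → Fin 5, (∀ i < m, ext t i = ext t' i) → t = t' := by
    intro t t' h
    funext i
    have := h i.1 i.2
    simpa [ext, i.2] using this
  have hcl : ∀ t, IsLevel m (c t) := by
    intro t x y hxy hx i hi
    rw [← hxy i hi]
    exact hx i hi
  have hcd : ∀ t t', t ≠ t' → Disjoint (c t) (c t') := by
    intro t t' hne
    rw [Set.disjoint_left]
    intro x h1 h2
    exact hne (hext t t' (fun i hi => by rw [← h1 i hi, h2 i hi]))
  have hcm : ∀ t, μ (c t) = μ {y : G | ∀ i < m, y i = 0} := fun t => measure_cyl (ext t) m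
  let V : Finset (Fin m → Fin 5) := Finset.univ.filter (fun t => VG u f m (ext t))
  have hV : ∀ t ∈ V, VG u f m (ext t) := fun t ht => (Finset.mem_filter.1 ht).2
  have hVdef : ∀ t : Fin m → Fin 5, ∃ z₀ : G, t ∈ V → (∃ p : X, ∀ i < m, pr (u p) i = z₀ i) ∧
      ∀ q : X, (∀ i < m, pr q i = z₀ i) → ∀ i < m, pr (f q) i = ext t i := by
    intro t
    by_cases ht : t ∈ V
    · obtain ⟨z₀, h⟩ := hV t ht
      exact ⟨z₀, fun _ => h⟩
    · exact ⟨0, fun h => absurd h ht⟩
  choose z₀ hz₀ using hVdef
  let ζ : (Fin m → Fin 5) → (Fin m → Fin 5) := fun t i => z₀ t i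
  have hextζ : ∀ t, ∀ i < m, ext (ζ t) i = z₀ t i := by
    intro t i hi
    simp [ext, ζ, hi]
  have hζinj : Set.InjOn ζ V := by
    intro t ht t' ht' hh
    apply hext
    intro i hi
    have h1 := (hz₀ t ht).2 (pt (z₀ t) false) (fun i _ => rfl) i hi
    have h2 := (hz₀ t' ht').2 (pt (z₀ t) false) (fun i hi => by
      rw [pr_pt, ← hextζ t i hi, hh, hextζ t' i hi]) i hi
    rw [← h1, h2]
  have e1 : {x | VG u f m x} ⊆ ⋃ t ∈ V, c t := by
    intro x hx
    let t : Fin m → Fin 5 := fun i => x i
    have hxt : ∀ i < m, x i = ext t i := by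
      intro i hi
      simp [ext, t, hi]
    have ht : t ∈ V := by
      refine Finset.mem_filter.2 ⟨Finset.mem_univ _, ?_⟩
      obtain ⟨z, h1, h2⟩ := hx
      exact ⟨z, h1, fun q hq i hi => by rw [h2 q hq i hi]; exact hxt i hi⟩
    exact mem_biUnion ht hxt
  have e2 : (⋃ t ∈ V, c (ζ t)) ⊆ {y : G | ∀ i < m₁, y i = z₁ i}ᶜ := by
    intro x hx hx'
    simp only [mem_iUnion] at hx
    obtain ⟨t, ht, hxt⟩ := hx
    obtain ⟨p, hp⟩ := (hz₀ t ht).1
    apply hmiss p
    intro i hi
    rw [hp i (by omega), ← hextζ t i (by omega), ← hxt i (by omega)]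
    exact hx' i hi
  calc μ {x | VG u f m x} ≤ μ (⋃ t ∈ V, c t) := measure_mono e1
    _ ≤ ∑ t ∈ V, μ (c t) := measure_biUnion_finset_le _ _
    _ = ∑ t ∈ V, μ (c (ζ t)) := by
        refine Finset.sum_congr rfl fun t _ => ?_
        rw [hcm, hcm]
    _ = μ (⋃ t ∈ V, c (ζ t)) := by
        rw [measure_biUnion_finset]
        · intro t ht t' ht' hne
          exact hcd _ _ (fun hh => hne (hζinj ht ht' hh))
        · intro t _
          exact (hcl _).measurable
    _ ≤ μ ({y : G | ∀ i < m₁, y i = z₁ i}ᶜ) := measure_mono e2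

theorem dense_image {u f : X → X} (hu : Continuous u) (hf : Continuous f)
    (hfu : ∀ p, f (u p) = p) (z : G) (m : ℕ) : ∃ p : X, ∀ i < m, pr (u p) i = z i := by
  by_contra hcon
  have hmiss : ∀ p : X, ¬ ∀ i < m, pr (u p) i = z i := by
    intro p hp
    exact hcon ⟨p, hp⟩
  let E : ℕ → Set G := fun M => {x | ∀ m', M ≤ m' → VG u f m' x}
  have hEmono : Monotone E := by
    intro M M' hMM x hx m' hm'
    exact hx m' (le_trans hMM hm')
  have h1 : μ (⋃ M, E M) = 1 := by
    have hc : μ ((⋃ M, E M)ᶜ) = 0 := by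
      apply measure_mono_null _ (ae_VG hu hf hfu)
      intro x hx hx'
      apply hx
      obtain ⟨M, hM⟩ := hx'
      exact mem_iUnion.2 ⟨M, hM⟩
    have h2 : μ univ ≤ μ (⋃ M, E M) + μ ((⋃ M, E M)ᶜ) := by
      rw [← union_compl_self (⋃ M, E M)]
      exact measure_union_le _ _
    rw [hc, add_zero, measure_univ] at h2
    exact le_antisymm prob_le_one h2
  rw [hEmono.measure_iUnion] at h1
  have h3 : ∀ M, μ (E M) ≤ 1 - μ {y : G | ∀ i < m, y i = z i} := by
    intro M
    calc μ (E M) ≤ μ {x | VG u f (max M m) x} :=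
          measure_mono (fun x hx => hx _ (le_max_left _ _))
      _ ≤ μ ({y : G | ∀ i < m, y i = z i}ᶜ) := measure_VG_le hmiss (le_max_right _ _)
      _ = 1 - μ {y : G | ∀ i < m, y i = z i} := by
          rw [measure_compl (isOpen_cyl z m).measurableSet (measure_ne_top _ _), measure_univ]
  have h4 : (1 : ENNReal) ≤ 1 - μ {y : G | ∀ i < m, y i = z i} := by
    calc (1 : ENNReal) = ⨆ M, μ (E M) := h1.symm
      _ ≤ _ := iSup_le h3
  have h5 : 1 - μ {y : G | ∀ i < m, y i = z i} < 1 :=
    ENNReal.sub_lt_self ENNReal.one_ne_top one_ne_zero (measure_cyl_pos z m).ne'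
  exact absurd h4 (not_le.2 h5)

lemma side_fact : ∀ t i : Bool, ∃ b : Fin 5, b ≠ 0 ∧ rho t b = i := by decide +kernel

/-- Main property of the space: a continuous map with a continuous left inverse is onto. -/
theorem surjective_of_leftInverse {u f : X → X} (hu : Continuous u) (hf : Continuous f)
    (hfu : ∀ p, f (u p) = p) : Function.Surjective u := by
  intro p₀
  by_contra hp₀
  let z := pr p₀
  let i := e z p₀
  have hO : IsOpen (range u)ᶜ := (isCompact_range hu).isClosed.isOpen_compl
  have hmem : pt z i ∈ (range u)ᶜ := by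
    rw [pt_pr]
    exact hp₀
  obtain ⟨n, hn⟩ := nhd_point hO hmem
  obtain ⟨b, hb0, hb⟩ := side_fact (w n) i
  let z' : G := Function.update z n (z n + b)
  have hz'1 : ∀ j < n, z' j = z j := fun j hj => Function.update_of_ne (by omega) _ _
  have hz'2 : z' n = z n + b := Function.update_self _ _ _
  obtain ⟨p, hp⟩ := dense_image hu hf hfu z' (n + 1)
  have h1 : ∀ j < n, pr (u p) j = z j := fun j hj => by rw [hp j (by omega), hz'1 j hj]
  have h2 : z n ≠ pr (u p) n := by
    rw [hp n (by omega), hz'2]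
    intro hh
    apply hb0
    have h3 : z n + 0 = z n + b := by rw [add_zero]; exact hh
    exact (add_left_cancel h3).symm
  have h3 : z ≠ pr (u p) := fun hh => h2 (congrFun hh n)
  have h4 : e z (u p) = i := by
    rw [e_of_ne h3, R_eq (fun j hj => (h1 j hj).symm) h2, hp n (by omega), hz'2,
      add_sub_cancel_left, hb]
  exact hn (u p) h1 h4 ⟨p, rfl⟩

/-! moving points by homeomorphisms -/

lemma clopen_basis : TopologicalSpace.IsTopologicalBasis {s : Set X | IsClopen s} :=
  isTopologicalBasis_isClopen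

/-- swapping two disjoint clopen copies -/
lemma swap_clopen (k : X ≃ₜ X) (V : Set X) (hV : IsClopen V) (hd : ∀ x ∈ V, k x ∉ V) :
    ∃ h : X ≃ₜ X, (∀ x ∈ V, h x = k x) ∧ ∀ x, x ∉ V → k.symm x ∉ V → h x = x := by
  classical
  let φ : X → X := fun x => if x ∈ V then k x else if k.symm x ∈ V then k.symm x else x
  have h1 : ∀ x ∈ V, φ x = k x := fun x hx => by simp [φ, hx]
  have h2 : ∀ x, x ∉ V → k.symm x ∈ V → φ x = k.symm x := fun x hx hx' => by simp [φ, hx, hx']
  have h3 : ∀ x, x ∉ V → k.symm x ∉ V → φ x = x := fun x hx hx' => by simp [φ, hx, hx']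
  have hinv : ∀ x, φ (φ x) = x := by
    intro x
    by_cases hx : x ∈ V
    · rw [h1 x hx, h2 (k x) (hd x hx) (by simpa using hx)]
      simp
    · by_cases hx' : k.symm x ∈ V
      · rw [h2 x hx hx', h1 _ hx']
        simp
      · rw [h3 x hx hx', h3 x hx hx']
  have hV' : IsClopen {x : X | k.symm x ∈ V} := hV.preimage k.symm.continuous
  have hcont : Continuous φ := by
    apply Continuous.if
    · intro a ha
      have : frontier {x : X | x ∈ V} = ∅ := hV.frontier_eq
      rw [this] at ha
      exact absurd ha (notMem_empty a)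
    · exact k.continuous
    · apply Continuous.if
      · intro a ha
        rw [hV'.frontier_eq] at ha
        exact absurd ha (notMem_empty a)
      · exact k.symm.continuous
      · exact continuous_id
  exact ⟨⟨⟨φ, φ, hinv, hinv⟩, hcont, hcont⟩, h1, h3⟩

/-- a point can be moved to another one by a homeomorphism fixing a given finite set -/
lemma move {E : Set X} (hE : E.Finite) {p q : X} (hp : p ∉ E) (hq : q ∉ E) :
    ∃ h : X ≃ₜ X, h p = q ∧ ∀ x ∈ E, h x = x := by
  by_cases hpq : p = q
  · exact ⟨Homeomorph.refl X, hpq, fun _ _ => rfl⟩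
  · obtain ⟨k, hk⟩ := homogeneous p q
    obtain ⟨O₁, O₂, hO₁, hO₂, hpO, hqO, hdis⟩ := t2_separation hpq
    have hopen : IsOpen (((Eᶜ ∩ k ⁻¹' Eᶜ) ∩ O₁) ∩ k ⁻¹' O₂) :=
      (((hE.isClosed.isOpen_compl).inter (hE.isClosed.isOpen_compl.preimage k.continuous)).inter
        hO₁).inter (hO₂.preimage k.continuous)
    have hmem : p ∈ ((Eᶜ ∩ k ⁻¹' Eᶜ) ∩ O₁) ∩ k ⁻¹' O₂ := by
      refine ⟨⟨⟨hp, ?_⟩, hpO⟩, ?_⟩
      · show k p ∉ E
        rw [hk]; exact hq
      · show k p ∈ O₂
        rw [hk]; exact hqO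
    obtain ⟨V, hV, hpV, hVO⟩ := clopen_basis.exists_subset_of_mem_open hmem hopen
    have hd : ∀ x ∈ V, k x ∉ V := by
      intro x hx hkx
      have h1 : k x ∈ O₁ := (hVO hkx).1.2
      have h2 : k x ∈ O₂ := (hVO hx).2
      exact Set.disjoint_left.1 hdis h1 h2
    obtain ⟨h, h1, h2⟩ := swap_clopen k V hV hd
    refine ⟨h, by rw [h1 p hpV, hk], fun x hx => ?_⟩
    apply h2
    · intro hxV
      exact (hVO hxV).1.1.1 hx
    · intro hxV
      have h3 : k (k.symm x) ∉ E := (hVO hxV).1.1.2
      rw [Homeomorph.apply_symm_apply] at h3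
      exact h3 hx

/-- points on a given side of the base point `0` accumulate to it -/
lemma exists_side (i : Bool) (n : ℕ) : ∃ y : G, (∀ j < n, y j = 0) ∧ y n ≠ 0 ∧ R 0 y = i := by
  obtain ⟨b, hb0, hb⟩ := side_fact (w n) i
  refine ⟨Pi.single n b, ?_, ?_, ?_⟩
  · intro j hj
    have hjn : j ≠ n := by omega
    simp [hjn]
  · rw [Pi.single_eq_same]
    exact hb0
  · have h1 : ∀ j < n, (0 : G) j = (Pi.single n b : G) j := by
      intro j hj
      have hjn : j ≠ n := by omega
      have : (Pi.single n b : G) j = 0 := by simp [hjn]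
      rw [this]
      rfl
    have h2 : (0 : G) n ≠ (Pi.single n b : G) n := by
      rw [Pi.single_eq_same]
      exact Ne.symm hb0
    rw [R_eq h1 h2, Pi.single_eq_same]
    have : (0 : G) n = 0 := rfl
    rw [this, sub_zero, hb]

/-- the space is not left bounded -/
theorem not_left_bounded : ∃ U : Set (X → X), U ∈ 𝓝 (id : X → X) ∧
    ∀ F : Set (X → X), F.Finite → (∀ g ∈ F, Continuous g) →
      ∃ f : X → X, Continuous f ∧ ∀ g ∈ F, ∀ u ∈ U, Continuous u → f ≠ g ∘ u := by
  let x₀ : X := pt 0 false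
  let x₁ : X := pt 0 true
  let V : Bool → Set X := fun i => {p | e 0 p = i}
  have hVcl : ∀ i, IsClopen (V i) := fun i =>
    (isClopen_discrete ({i} : Set Bool)).preimage (continuous_e 0)
  refine ⟨{u | u x₀ ∈ V false ∧ u x₁ ∈ V true}, ?_, ?_⟩
  · apply IsOpen.mem_nhds
    · have hc0 : Continuous (fun u : X → X => u x₀) := continuous_apply x₀
      have hc1 : Continuous (fun u : X → X => u x₁) := continuous_apply x₁
      exact ((hVcl false).isOpen.preimage hc0).inter ((hVcl true).isOpen.preimage hc1)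
    · exact ⟨e_pt_self 0 false, e_pt_self 0 true⟩
  · intro F hF hFc
    by_contra hcon
    push Not at hcon
    -- a neighbourhood of `x₀`
    have hW : ∀ g ∈ F, ∃ W : Set X, IsOpen W ∧ x₀ ∈ W ∧
        (Function.Injective g → x₀ ∈ g '' (V false) → ∀ y ∈ W, y ∉ g '' (V true)) := by
      intro g hg
      by_cases hinj : Function.Injective g ∧ x₀ ∈ g '' (V false)
      · refine ⟨(g '' (V true))ᶜ, ?_, ?_, fun _ _ y hy => hy⟩
        · exact ((hVcl true).isClosed.isCompact.image (hFc g hg)).isClosed.isOpen_compl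
        · rintro ⟨b, hb, hb'⟩
          obtain ⟨h1, a, ha, ha'⟩ := hinj
          have : a = b := h1 (by rw [ha', hb'])
          rw [this] at ha
          have h3 : e 0 b = false := ha
          have h4 : e 0 b = true := hb
          rw [h3] at h4
          exact absurd h4 (by decide)
      · exact ⟨univ, isOpen_univ, mem_univ _, fun h1 h2 => absurd ⟨h1, h2⟩ hinj⟩
    choose! W hWo hWm hWp using hW
    have hWW : IsOpen (⋂ g ∈ F, W g) := hF.isOpen_biInter fun g hg => hWo g hg
    have hmem : pt 0 false ∈ ⋂ g ∈ F, W g := mem_iInter₂.2 fun g hg => hWm g hg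
    obtain ⟨n, hn⟩ := nhd_point hWW hmem
    obtain ⟨y, hy1, hy2, hy3⟩ := exists_side false n
    have hy0 : (0 : G) ≠ y := fun hh => hy2 (by rw [← hh]; rfl)
    have hyW : pt y false ∈ ⋂ g ∈ F, W g := by
      apply hn
      · intro j hj
        rw [pr_pt, hy1 j hj]
        rfl
      · have : e 0 (pt y false) = R 0 (pr (pt y false)) := e_of_ne hy0
        rw [this, pr_pt, hy3]
    have hne1 : x₁ ∉ ({x₀} : Set X) := by
      intro hh
      have h1 : x₁ = x₀ := hh
      have h2 : e 0 x₁ = e 0 x₀ := by rw [h1]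
      simp only [x₀, x₁, e_pt_self] at h2
      exact absurd h2 (by decide)
    have hne2 : pt y false ∉ ({x₀} : Set X) := by
      intro hh
      have h1 : pt y false = x₀ := hh
      have h2 : pr (pt y false) = pr x₀ := by rw [h1]
      simp only [x₀, pr_pt] at h2
      exact hy0 h2.symm
    obtain ⟨h, hh1, hh2⟩ := move (finite_singleton x₀) hne1 hne2
    obtain ⟨g, hg, u, ⟨hu0, hu1⟩, hu, hgu⟩ := hcon h h.continuous
    have hsurj : Function.Surjective u := by
      apply surjective_of_leftInverse (f := fun x => h.symm (g x)) hu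
        (h.symm.continuous.comp (hFc g hg))
      intro p
      have : g (u p) = h p := (congrFun hgu p).symm
      simp only [this, Homeomorph.symm_apply_apply]
    have hginj : Function.Injective g := by
      intro a b hab
      obtain ⟨a', rfl⟩ := hsurj a
      obtain ⟨b', rfl⟩ := hsurj b
      have h3 : h a' = h b' := by
        have e1 : h a' = g (u a') := congrFun hgu a'
        have e2 : h b' = g (u b') := congrFun hgu b'
        rw [e1, e2, hab]
      rw [h.injective h3]
    have hx0 : x₀ ∈ g '' (V false) := by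
      refine ⟨u x₀, hu0, ?_⟩
      have e1 : h x₀ = g (u x₀) := congrFun hgu x₀
      rw [← e1]
      exact hh2 x₀ rfl
    have hx1 : pt y false ∈ g '' (V true) := by
      refine ⟨u x₁, hu1, ?_⟩
      have e1 : h x₁ = g (u x₁) := congrFun hgu x₁
      rw [← e1]
      exact hh1
    exact hWp g hg hginj hx0 _ (mem_iInter₂.1 hyW g hg) hx1

/-- a finite set can be moved into the side `true` of `0` -/
lemma move_set (E : Finset X) : ∃ h : X ≃ₜ X, ∀ a ∈ E, e 0 (h a) = true := by
  classical
  induction E using Finset.induction_on with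
  | empty => exact ⟨Homeomorph.refl X, fun a ha => absurd ha (Finset.notMem_empty a)⟩
  | insert b E hb ih =>
    obtain ⟨h, hh⟩ := ih
    by_cases hb' : e 0 (h b) = true
    · refine ⟨h, fun a ha => ?_⟩
      rcases Finset.mem_insert.1 ha with rfl | ha
      · exact hb'
      · exact hh a ha
    · -- a fresh point
      have hinf : ∃ q : X, e 0 q = true ∧ q ∉ h '' (E : Set X) := by
        by_contra hcon
        push Not at hcon
        choose y hy1 hy2 hy3 using exists_side true
        have hy0 : ∀ n, (0 : G) ≠ y n := fun n hh => hy2 n (by rw [← hh]; rfl)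
        have hinj : Function.Injective (fun n => pt (y n) false) := by
          intro m n hmn
          have h1 : y m = y n := congrArg pr hmn
          rcases lt_trichotomy m n with hlt | heq | hgt
          · exact absurd (by rw [h1]; exact hy1 n m hlt) (hy2 m)
          · exact heq
          · exact absurd (by rw [← h1]; exact hy1 m n hgt) (hy2 n)
        have hfin : (range (fun n => pt (y n) false)).Finite := by
          refine (E.finite_toSet.image h).subset ?_
          rintro _ ⟨n, rfl⟩
          apply hcon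
          have h2 : e 0 (pt (y n) false) = R 0 (y n) := e_of_ne (hy0 n)
          rw [h2, hy3]
        exact (infinite_range_of_injective hinj) hfin
      obtain ⟨q, hq1, hq2⟩ := hinf
      have hbE : h b ∉ h '' (E : Set X) := by
        rintro ⟨a, ha, hab⟩
        rw [h.injective hab] at ha
        exact hb ha
      obtain ⟨k, hk1, hk2⟩ := move (E.finite_toSet.image h) hbE hq2
      refine ⟨h.trans k, fun a ha => ?_⟩
      rcases Finset.mem_insert.1 ha with rfl | ha
      · show e 0 (k (h a)) = true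
        rw [hk1, hq1]
      · show e 0 (k (h a)) = true
        rw [hk2 (h a) ⟨a, ha, rfl⟩]
        exact hh a ha

/-- the space is not right bounded -/
theorem not_right_bounded : ∃ U : Set (X → X), U ∈ 𝓝 (id : X → X) ∧
    ∀ F : Set (X → X), F.Finite → (∀ f ∈ F, Continuous f) →
      ∃ g : X → X, Continuous g ∧ ∀ f ∈ F, ∀ u ∈ U, Continuous u → g ≠ u ∘ f := by
  classical
  let x₀ : X := pt 0 false
  refine ⟨{u | e 0 (u x₀) = false}, ?_, ?_⟩
  · apply IsOpen.mem_nhds
    · exact (isOpen_discrete ({false} : Set Bool)).preimage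
        ((continuous_e 0).comp (continuous_apply x₀))
    · exact e_pt_self 0 false
  · intro F hF hFc
    by_contra hcon
    push Not at hcon
    -- preimages of `x₀` under the bijective members of `F`
    have hE : {a : X | ∃ f ∈ F, Function.Injective f ∧ f a = x₀}.Finite := by
      have : {a : X | ∃ f ∈ F, Function.Injective f ∧ f a = x₀} ⊆
          ⋃ f ∈ F, {a : X | Function.Injective f ∧ f a = x₀} := by
        rintro a ⟨f, hf, h⟩
        exact mem_biUnion hf h
      refine (hF.biUnion fun f _ => ?_).subset this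
      apply Set.Subsingleton.finite
      rintro a ⟨h1, h2⟩ b ⟨_, h3⟩
      exact h1 (by rw [h2, h3])
    obtain ⟨h, hh⟩ := move_set hE.toFinset
    obtain ⟨f, hf, u, hu0, hu, hgu⟩ := hcon h h.continuous
    have hleft : ∀ p, h.symm (u (f p)) = p := by
      intro p
      have : u (f p) = h p := (congrFun hgu p).symm
      rw [this, Homeomorph.symm_apply_apply]
    have hsurj : Function.Surjective f :=
      surjective_of_leftInverse (u := f) (f := fun x => h.symm (u x)) (hFc f hf)
        (h.symm.continuous.comp hu) hleft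
    have hfinj : Function.Injective f := by
      intro a b hab
      rw [← hleft a, hab, hleft b]
    obtain ⟨a, ha⟩ := hsurj x₀
    have h1 := hh a (by
      rw [Set.Finite.mem_toFinset]
      exact ⟨f, hf, hfinj, ha⟩)
    have h2 : h a = u x₀ := by
      rw [← ha]
      exact congrFun hgu a
    have h3 : e 0 (u x₀) = false := hu0
    rw [h2, h3] at h1
    exact absurd h1 (by decide)

end Pool.Agent.Helper936.Split
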